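import Mathlib

/-!
# Every normed algebra is a closed two-sided ideal of a stable normed algebra
-/

namespace Pool.Agent.Results.MP_3ea013_an.EveryAlgebraIsIdeal

universe u

/-- A normed algebra `A` is left stable if for all `a` and all `M > 0`, the condition
`‖a * b‖ ≤ M * ‖b‖` for all `b` forces `‖a‖ ≤ M`. -/
def LeftStable (A : Type u) [NonUnitalNormedRing A] : Prop :=
  ∀ a : A, ∀ M : ℝ, 0 < M → (∀ b : A, ‖a * b‖ ≤ M * ‖b‖) → ‖a‖ ≤ M

/-- A normed algebra `A` is right stable if for all `a` and all `M > 0`, the condition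
`‖b * a‖ ≤ M * ‖b‖` for all `b` forces `‖a‖ ≤ M`. -/
def RightStable (A : Type u) [NonUnitalNormedRing A] : Prop :=
  ∀ a : A, ∀ M : ℝ, 0 < M → (∀ b : A, ‖b * a‖ ≤ M * ‖b‖) → ‖a‖ ≤ M

/-- **Every normed algebra is a closed two-sided ideal of a stable normed algebra.** For every
complex normed algebra `B` there are a complex normed algebra `A`, both left and right stable
(and with an identity of norm one), and an isometric algebra homomorphism `φ : B → A` whose range is
a closed two-sided ideal of `A`. If `B` is complete so is `A`; if `B` is commutative so is `A`. -/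
theorem result (B : Type u) [NonUnitalNormedRing B] [NormedSpace ℂ B] [IsScalarTower ℂ B B]
    [SMulCommClass ℂ B B] :
    ∃ (A : Type u) (_ : NormedRing A) (_ : NormedAlgebra ℂ A) (φ : B →ₙₐ[ℂ] A),
      ‖(1 : A)‖ = 1 ∧ LeftStable A ∧ RightStable A ∧ Isometry φ ∧
      IsClosed (Set.range φ) ∧ (∀ (a : A) (b : B), ∃ b' : B, φ b' = a * φ b) ∧
      (∀ (a : A) (b : B), ∃ b' : B, φ b' = φ b * a) ∧
      (CompleteSpace B → CompleteSpace A) ∧
      ((∀ x y : B, x * y = y * x) → ∀ x y : A, x * y = y * x) := by
  let A := WithLp 1 (Unitization ℂ B)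
  let φ : B →ₙₐ[ℂ] A :=
    { toFun := fun b => WithLp.toLp 1 (b : Unitization ℂ B)
      map_smul' := fun c b => by
        apply (WithLp.equiv 1 (Unitization ℂ B)).injective
        exact Unitization.inr_smul ℂ c b
      map_zero' := by
        apply (WithLp.equiv 1 (Unitization ℂ B)).injective
        exact Unitization.inr_zero ℂ
      map_add' := fun a b => by
        apply (WithLp.equiv 1 (Unitization ℂ B)).injective
        exact Unitization.inr_add ℂ a b
      map_mul' := fun a b => by
        apply (WithLp.equiv 1 (Unitization ℂ B)).injective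
        exact Unitization.inr_mul ℂ a b }
  have hone : ‖(1 : A)‖ = 1 := by
    rw [WithLp.unitization_norm_def]
    change ‖(1 : Unitization ℂ B).fst‖ + ‖(1 : Unitization ℂ B).snd‖ = 1
    simp
  have hφ : ∀ b : B, φ b = WithLp.toLp 1 (b : Unitization ℂ B) := fun b => rfl
  have hiso : Isometry φ := WithLp.unitization_isometry_inr
  have hmem : ∀ a : A, (WithLp.ofLp a).fst = 0 → ∃ b : B, φ b = a := by
    intro a ha
    refine ⟨(WithLp.ofLp a).snd, ?_⟩
    apply (WithLp.equiv 1 (Unitization ℂ B)).injective
    change ((WithLp.ofLp a).snd : Unitization ℂ B) = WithLp.ofLp a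
    apply Unitization.ext
    · rw [Unitization.fst_inr, ha]
    · rw [Unitization.snd_inr]
  have hrange : Set.range φ = {a : A | (WithLp.ofLp a).fst = 0} := by
    ext a
    constructor
    · rintro ⟨b, rfl⟩
      exact Unitization.fst_inr ℂ b
    · intro ha
      exact hmem a ha
  have hcont : Continuous (fun a : A => (WithLp.ofLp a).fst) := by
    have hlip : LipschitzWith 1 (fun a : A => (WithLp.ofLp a).fst) := by
      refine LipschitzWith.of_dist_le_mul (fun a b => ?_)
      rw [NNReal.coe_one, one_mul, dist_eq_norm, dist_eq_norm, WithLp.unitization_norm_def]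
      have h1 : (WithLp.ofLp (a - b)).fst = (WithLp.ofLp a).fst - (WithLp.ofLp b).fst := rfl
      rw [h1]
      have h2 : 0 ≤ ‖(WithLp.ofLp (a - b)).snd‖ := norm_nonneg _
      linarith
    exact hlip.continuous
  refine ⟨A, inferInstance, inferInstance, φ, hone, ?_, ?_, hiso, ?_, ?_, ?_, ?_, ?_⟩
  · intro a M _ h
    have := h 1
    rwa [mul_one, hone, mul_one] at this
  · intro a M _ h
    have := h 1
    rwa [one_mul, hone, mul_one] at this
  · rw [hrange]
    exact isClosed_singleton.preimage hcont
  · intro a b
    refine hmem _ ?_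
    rw [WithLp.unitization_mul, Unitization.fst_mul, hφ]
    change _ * ((b : Unitization ℂ B)).fst = 0
    rw [Unitization.fst_inr, mul_zero]
  · intro a b
    refine hmem _ ?_
    rw [WithLp.unitization_mul, Unitization.fst_mul, hφ]
    change ((b : Unitization ℂ B)).fst * _ = 0
    rw [Unitization.fst_inr, zero_mul]
  · intro hB
    exact WithLp.instCompleteSpace ℂ B
  · intro hcomm x y
    apply (WithLp.equiv 1 (Unitization ℂ B)).injective
    change WithLp.ofLp x * WithLp.ofLp y = WithLp.ofLp y * WithLp.ofLp x
    apply Unitization.ext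
    · rw [Unitization.fst_mul, Unitization.fst_mul, mul_comm]
    · rw [Unitization.snd_mul, Unitization.snd_mul, hcomm (WithLp.ofLp x).snd (WithLp.ofLp y).snd,
        add_comm ((WithLp.ofLp x).fst • (WithLp.ofLp y).snd)]

end Pool.Agent.Results.MP_3ea013_an.EveryAlgebraIsIdeal
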