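import Mathlib

/-!
# Two-sided ideals of stable normed algebras need not be stable

For every `K > 1` we exhibit a commutative, unital, complete (two-dimensional, semisimple) stable
normed algebra `A` and a closed two-sided ideal `I` of `A`, possessing an identity element of norm
`K`, such that `I` with the restricted norm is neither left nor right stable.
-/

namespace Pool.Agent.Results.MP_3ea013_an.IdealNotStable

/-- Left stability of a subset `S` (an ideal, or all of `A`) of a normed algebra `A`, tested only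
against elements of `S`: for all `a ∈ S` and all `M > 0`, if `‖a * b‖ ≤ M * ‖b‖` for all `b ∈ S`,
then `‖a‖ ≤ M`. -/
def LeftStable {A : Type*} [NormedRing A] (S : Set A) : Prop :=
  ∀ a ∈ S, ∀ M : ℝ, 0 < M → (∀ b ∈ S, ‖a * b‖ ≤ M * ‖b‖) → ‖a‖ ≤ M

/-- Right stability of a subset `S` (an ideal, or all of `A`) of a normed algebra `A`, tested only
against elements of `S`: for all `a ∈ S` and all `M > 0`, if `‖b * a‖ ≤ M * ‖b‖` for all `b ∈ S`,
then `‖a‖ ≤ M`. -/
def RightStable {A : Type*} [NormedRing A] (S : Set A) : Prop :=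
  ∀ a ∈ S, ∀ M : ℝ, 0 < M → (∀ b ∈ S, ‖b * a‖ ≤ M * ‖b‖) → ‖a‖ ≤ M

/-- The algebra `ℂ × ℂ`, to be equipped with the norm `‖(x, y)‖ = |y| + K |x - y|`. -/
def Alg (_K : ℝ) : Type := ℂ × ℂ

noncomputable instance (K : ℝ) : CommRing (Alg K) := inferInstanceAs (CommRing (ℂ × ℂ))

noncomputable instance (K : ℝ) : Algebra ℂ (Alg K) := inferInstanceAs (Algebra ℂ (ℂ × ℂ))

/-- The norm `‖(x, y)‖ = |y| + K |x - y|` on `ℂ × ℂ`. -/
noncomputable def nrm (K : ℝ) (p : Alg K) : ℝ := ‖p.2‖ + K * ‖p.1 - p.2‖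

/-- `nrm K` as a ring norm. -/
noncomputable def ringNorm (K : ℝ) (hK : 1 < K) : RingNorm (Alg K) where
  toFun := nrm K
  map_zero' := by
    change ‖(0 : ℂ)‖ + K * ‖(0 : ℂ) - 0‖ = 0
    simp
  add_le' := by
    intro p q
    change ‖p.2 + q.2‖ + K * ‖(p.1 + q.1) - (p.2 + q.2)‖ ≤
      (‖p.2‖ + K * ‖p.1 - p.2‖) + (‖q.2‖ + K * ‖q.1 - q.2‖)
    have h1 := norm_add_le p.2 q.2
    have h2 : ‖(p.1 + q.1) - (p.2 + q.2)‖ ≤ ‖p.1 - p.2‖ + ‖q.1 - q.2‖ := by
      have : (p.1 + q.1) - (p.2 + q.2) = (p.1 - p.2) + (q.1 - q.2) := by ring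
      rw [this]
      exact norm_add_le _ _
    nlinarith
  mul_le' := by
    intro p q
    change ‖p.2 * q.2‖ + K * ‖(p.1 * q.1) - (p.2 * q.2)‖ ≤
      (‖p.2‖ + K * ‖p.1 - p.2‖) * (‖q.2‖ + K * ‖q.1 - q.2‖)
    have h2 : ‖(p.1 * q.1) - (p.2 * q.2)‖ ≤ ‖p.1 - p.2‖ * ‖q.1 - q.2‖ + ‖p.1 - p.2‖ * ‖q.2‖
        + ‖p.2‖ * ‖q.1 - q.2‖ := by
      have : (p.1 * q.1) - (p.2 * q.2)
          = (p.1 - p.2) * (q.1 - q.2) + (p.1 - p.2) * q.2 + p.2 * (q.1 - q.2) := by ring
      rw [this]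
      refine (norm_add_le _ _).trans ?_
      refine add_le_add ((norm_add_le _ _).trans ?_) ?_
      · simp
      · simp
    rw [norm_mul]
    have h3 : 0 ≤ ‖p.1 - p.2‖ * ‖q.1 - q.2‖ := by positivity
    have hK0 : 0 ≤ K := by linarith
    have h4 : K * ‖(p.1 * q.1) - (p.2 * q.2)‖ ≤ K * (‖p.1 - p.2‖ * ‖q.1 - q.2‖
        + ‖p.1 - p.2‖ * ‖q.2‖ + ‖p.2‖ * ‖q.1 - q.2‖) := mul_le_mul_of_nonneg_left h2 hK0
    nlinarith [mul_nonneg (mul_nonneg hK0 (by linarith : (0 : ℝ) ≤ K - 1)) h3]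
  neg' := by
    intro p
    change ‖-p.2‖ + K * ‖-p.1 - -p.2‖ = ‖p.2‖ + K * ‖p.1 - p.2‖
    have : -p.1 - -p.2 = -(p.1 - p.2) := by ring
    rw [this, norm_neg, norm_neg]
  eq_zero_of_map_eq_zero' := by
    intro p hp
    change ‖p.2‖ + K * ‖p.1 - p.2‖ = 0 at hp
    have h1 : 0 ≤ ‖p.2‖ := norm_nonneg _
    have h2 : 0 ≤ ‖p.1 - p.2‖ := norm_nonneg _
    have h3 : ‖p.2‖ = 0 := by nlinarith
    have h4 : ‖p.1 - p.2‖ = 0 := by nlinarith
    have h5 : p.2 = 0 := norm_eq_zero.mp h3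
    have h6 : p.1 - p.2 = 0 := norm_eq_zero.mp h4
    have h7 : p.1 = 0 := by rw [h5, sub_zero] at h6; exact h6
    exact Prod.ext h7 h5

/-- The normed commutative ring structure on `Alg K` given by `‖(x, y)‖ = |y| + K |x - y|`. -/
noncomputable abbrev normedCommRing (K : ℝ) (hK : 1 < K) : NormedCommRing (Alg K) :=
  { (ringNorm K hK).toNormedRing with
    mul_comm := mul_comm }

/-- The complex normed algebra structure on `Alg K` given by `‖(x, y)‖ = |y| + K |x - y|`. -/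
noncomputable abbrev normedAlgebra (K : ℝ) (hK : 1 < K) :
    let _ := normedCommRing K hK
    NormedAlgebra ℂ (Alg K) :=
  let _ := normedCommRing K hK
  { (inferInstance : Algebra ℂ (Alg K)) with
    norm_smul_le := by
      intro r p
      change ‖r * p.2‖ + K * ‖r * p.1 - r * p.2‖ ≤ ‖r‖ * (‖p.2‖ + K * ‖p.1 - p.2‖)
      rw [← mul_sub, norm_mul, norm_mul]
      apply le_of_eq
      ring }

/-- The idempotent `(1, 0)` of `Alg K`. -/
noncomputable def idem (K : ℝ) : Alg K := ((1, 0) : ℂ × ℂ)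

/-- **Ideals of stable normed algebras need not be stable.** For every `K > 1` there are a
commutative unital complete complex normed algebra `A`, isomorphic as an algebra to `ℂ × ℂ`, which
is stable, and a closed two-sided ideal `I` of `A` having an identity element of norm `K`, such
that `I` with the restricted norm is neither left stable nor right stable. -/
theorem result (K : ℝ) (hK : 1 < K) :
    ∃ (A : Type) (_ : NormedCommRing A) (_ : NormedAlgebra ℂ A),
      CompleteSpace A ∧ Nonempty (A ≃ₐ[ℂ] ℂ × ℂ) ∧ ‖(1 : A)‖ = 1 ∧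
      LeftStable (Set.univ : Set A) ∧ RightStable (Set.univ : Set A) ∧
      ∃ I : Submodule ℂ A, (∀ a : A, ∀ x ∈ I, a * x ∈ I ∧ x * a ∈ I) ∧
        IsClosed (I : Set A) ∧
        (∃ e ∈ I, ‖e‖ = K ∧ ∀ x ∈ I, e * x = x ∧ x * e = x) ∧
        ¬ LeftStable (I : Set A) ∧ ¬ RightStable (I : Set A) := by
  let i1 := normedCommRing K hK
  let i2 := normedAlgebra K hK
  have hnorm : ∀ p : Alg K, ‖p‖ = ‖p.2‖ + K * ‖p.1 - p.2‖ := fun p => rfl
  have hfd : FiniteDimensional ℂ (Alg K) := inferInstanceAs (FiniteDimensional ℂ (ℂ × ℂ))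
  have hone : ‖(1 : Alg K)‖ = 1 := by
    rw [hnorm]
    change ‖(1 : ℂ)‖ + K * ‖(1 : ℂ) - 1‖ = 1
    simp
  let I : Submodule ℂ (Alg K) :=
    { carrier := {p | p.2 = 0}
      add_mem' := by
        intro a b ha hb
        change a.2 + b.2 = 0
        change a.2 = 0 at ha
        change b.2 = 0 at hb
        rw [ha, hb, add_zero]
      zero_mem' := rfl
      smul_mem' := by
        intro c x hx
        change c * x.2 = 0
        change x.2 = 0 at hx
        rw [hx, mul_zero] }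
  have hI : ∀ p : Alg K, p ∈ I ↔ p.2 = 0 := fun p => Iff.rfl
  have hid : ∀ x ∈ I, idem K * x = x ∧ x * idem K = x := by
    intro x hx
    rw [hI] at hx
    constructor
    · apply Prod.ext
      · change 1 * x.1 = x.1
        rw [one_mul]
      · change 0 * x.2 = x.2
        rw [hx, mul_zero]
    · apply Prod.ext
      · change x.1 * 1 = x.1
        rw [mul_one]
      · change x.2 * 0 = x.2
        rw [hx, mul_zero]
  have hnK : ‖idem K‖ = K := by
    rw [hnorm]
    change ‖(0 : ℂ)‖ + K * ‖(1 : ℂ) - 0‖ = K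
    simp
  refine ⟨Alg K, i1, i2, FiniteDimensional.complete ℂ (Alg K), ⟨AlgEquiv.refl⟩, hone, ?_, ?_, I,
    ?_, ?_, ⟨idem K, (hI _).2 rfl, hnK, hid⟩, ?_, ?_⟩
  · intro a _ M _ h
    have := h 1 (Set.mem_univ _)
    rwa [mul_one, hone, mul_one] at this
  · intro a _ M _ h
    have := h 1 (Set.mem_univ _)
    rwa [one_mul, hone, mul_one] at this
  · intro a x hx
    rw [hI] at hx
    constructor
    · rw [hI]
      change a.2 * x.2 = 0
      rw [hx, mul_zero]
    · rw [hI]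
      change x.2 * a.2 = 0
      rw [hx, zero_mul]
  · exact Submodule.closed_of_finiteDimensional I
  · intro h
    have := h (idem K) ((hI _).2 rfl) 1 one_pos (fun b hb => by rw [(hid b hb).1, one_mul])
    rw [hnK] at this
    linarith
  · intro h
    have := h (idem K) ((hI _).2 rfl) 1 one_pos (fun b hb => by rw [(hid b hb).2, one_mul])
    rw [hnK] at this
    linarith

end Pool.Agent.Results.MP_3ea013_an.IdealNotStable
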